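import Pool.Agent.Y157.PS.Stm

/-!
# Pro-`ℓ` coverings of superelliptic curves: classes fixed by a Frobenius lift
-/

set_option autoImplicit false
set_option linter.all false

open Polynomial FF

namespace Pool.Agent.Y419.PS

open Pool.Agent.Y157.PS

/-! ## general facts -/

lemma res_ne_zero {K k : Type} [Field K] [Field k] {O : ValuationSubring K} {r : O →+* k} (h : Res O r) (z : O) :
    r z ≠ 0 ↔ IsU O (z : K) := by
  rw [Ne, h.ker z, ValuationSubring.mem_nonunits_iff_or]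
  unfold IsU
  constructor
  · intro h1
    push Not at h1
    exact ⟨h1.1, z.2, h1.2⟩
  · rintro ⟨h1, -, h2⟩
    push Not
    exact ⟨h1, h2⟩

lemma res_residue {K : Type} [Field K] (O : ValuationSubring K) : Res O (IsLocalRing.residue O) := by
  refine ⟨IsLocalRing.residue_surjective, fun z => ?_⟩
  rw [IsLocalRing.residue_eq_zero_iff, ValuationSubring.coe_mem_nonunits_iff]

lemma algClosed_res {κ F : Type} [Field κ] [IsAlgClosed κ] [Field F] (V : ValuationSubring κ) (r : V →+* F)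
    (h : Res V r) : IsAlgClosed F := by
  refine IsAlgClosed.of_exists_root F fun p hp hirr => ?_
  have h1 : p ∈ Polynomial.lifts r := by
    rw [Polynomial.lifts_iff_coeff_lifts]
    intro n
    exact h.surj _
  obtain ⟨P, hP1, hP2, hP3⟩ := Polynomial.lifts_and_natDegree_eq_and_monic h1 hp
  have hdeg : (P.map (algebraMap V κ)).degree ≠ 0 := by
    rw [(hP3).degree_map]
    intro h0
    have h2 : p.natDegree = 0 := by
      rw [← hP2]
      exact Polynomial.natDegree_eq_of_degree_eq_some h0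
    have h3 := hirr.natDegree_pos
    omega
  obtain ⟨z, hz⟩ := IsAlgClosed.exists_root _ hdeg
  have hint : IsIntegral V z := ⟨P, hP3, by rw [← Polynomial.eval_map]; exact hz⟩
  obtain ⟨w, hw⟩ := IsIntegrallyClosed.isIntegral_iff.1 hint
  refine ⟨r w, ?_⟩
  have h4 : P.eval w = 0 := by
    have h5 : algebraMap V κ (P.eval w) = 0 := by
      rw [← Polynomial.eval₂_at_apply, hw, ← Polynomial.eval_map]
      exact hz
    exact (map_eq_zero_iff (algebraMap V κ) (IsFractionRing.injective V κ)).1 h5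
  rw [← hP1, Polynomial.eval_map, Polynomial.eval₂_at_apply, h4, map_zero]

lemma gauss_comap {κ M : Type} [Field κ] [Field M] [Algebra κ M] {V : ValuationSubring κ} {x : M}
    {O : ValuationSubring M} (hO : Gauss V x O) (φ : M ≃+* M) (φ₀ : κ ≃+* κ)
    (h : ∀ c, φ (algebraMap κ M c) = algebraMap κ M (φ₀ c)) (hx : φ x = x) (hV : ∀ c, φ₀ c ∈ V ↔ c ∈ V) :
    Gauss V x (O.comap (φ : M →+* M)) := by
  have hU : ∀ c, IsU V c → IsU V (φ₀ c) := by
    rintro c ⟨h1, h2, h3⟩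
    refine ⟨(map_ne_zero_iff φ₀ φ₀.injective).2 h1, (hV c).2 h2, ?_⟩
    rw [← map_inv₀]
    exact (hV _).2 h3
  refine ⟨fun c => ?_, fun p hp hpu => ?_⟩
  · rw [ValuationSubring.mem_comap]
    show φ (algebraMap κ M c) ∈ O ↔ _
    rw [h, hO.1, hV]
  · have h1 : φ (aeval x p) = aeval x (p.map (φ₀ : κ →+* κ)) := by
      rw [Polynomial.aeval_def, Polynomial.aeval_def, Polynomial.eval₂_map, ← RingEquiv.coe_toRingHom,
        Polynomial.hom_eval₂]
      congr 1
      · ext c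
        exact h c
    obtain ⟨n, hn⟩ := hpu
    have h2 := hO.2 (p.map (φ₀ : κ →+* κ)) (fun n => by
      rw [Polynomial.coeff_map]; exact (hV _).2 (hp n)) ⟨n, by
      rw [Polynomial.coeff_map]; exact hU _ hn⟩
    rw [← h1] at h2
    refine ⟨fun h0 => h2.1 (by rw [h0, map_zero]), ?_, ?_⟩
    · rw [ValuationSubring.mem_comap]; exact h2.2.1
    · rw [ValuationSubring.mem_comap]
      show φ (aeval x p)⁻¹ ∈ O
      rw [map_inv₀]; exact h2.2.2

lemma zeta_one {κ F : Type} [Field κ] [Field F] (V : ValuationSubring κ) (r : V →+* F) (h : Res V r) (ℓ : ℕ)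
    (hℓ : IsU V (ℓ : κ)) (n : ℕ) (ζ : κ) (h1 : ζ ^ (ℓ ^ n) = 1) (hζ : ζ ∈ V) (h2 : r ⟨ζ, hζ⟩ = 1) : ζ = 1 := by
  by_contra hne
  have h3 : ∑ i ∈ Finset.range (ℓ ^ n), ζ ^ i = 0 := by
    have := geom_sum_mul ζ (ℓ ^ n)
    rw [h1, sub_self, mul_eq_zero] at this
    rcases this with h | h
    · exact h
    · exact absurd (sub_eq_zero.1 h) hne
  have h4 : ∑ i ∈ Finset.range (ℓ ^ n), (⟨ζ, hζ⟩ : V) ^ i = 0 := by
    apply Subtype.ext
    push_cast
    exact h3
  have h5 := congrArg r h4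
  rw [map_sum, map_zero] at h5
  simp only [map_pow, h2, one_pow, Finset.sum_const, Finset.card_range, nsmul_eq_mul, mul_one] at h5
  push_cast at h5
  have h6 : r (⟨(ℓ : κ), hℓ.2.1⟩ : V) ≠ 0 := (res_ne_zero h _).2 hℓ
  have h7 : r (⟨(ℓ : κ), hℓ.2.1⟩ : V) = (ℓ : F) := by
    have : (⟨(ℓ : κ), hℓ.2.1⟩ : V) = ((ℓ : ℕ) : V) := by
      apply Subtype.ext
      push_cast
      rfl
    rw [this, map_natCast]
  rw [h7] at h6
  exact pow_ne_zero n h6 h5

lemma pow_eq_iterate {k : Type} [Field k] (Φ : k ≃+* k) (m : ℕ) (z : k) : (Φ ^ m) z = (Φ : k → k)^[m] z := by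
  induction m generalizing z with
  | zero => rfl
  | succ m ih =>
    rw [pow_succ, Function.iterate_succ_apply, ← ih]
    rfl

/-- the field of periodic elements -/
def perF {F k : Type} [Field F] [Field k] [Algebra F k] (Φ : k ≃+* k)
    (hF : ∀ c : F, algebraMap F k c ∈ Function.periodicPts Φ) : IntermediateField F k where
  carrier := Function.periodicPts Φ
  add_mem' := by
    rintro a b ⟨m, hm, ha⟩ ⟨n, hn, hb⟩
    refine ⟨m * n, Nat.mul_pos hm hn, ?_⟩
    have h1 := ha.mul_const n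
    have h2 := hb.const_mul m
    show (Φ)^[m * n] (a + b) = a + b
    rw [iterate_map_add]
    exact congrArg₂ (· + ·) h1 h2
  mul_mem' := by
    rintro a b ⟨m, hm, ha⟩ ⟨n, hn, hb⟩
    refine ⟨m * n, Nat.mul_pos hm hn, ?_⟩
    have h1 := ha.mul_const n
    have h2 := hb.const_mul m
    show (Φ)^[m * n] (a * b) = a * b
    rw [iterate_map_mul]
    exact congrArg₂ (· * ·) h1 h2
  algebraMap_mem' := hF
  inv_mem' := by
    rintro a ⟨m, hm, ha⟩
    refine ⟨m, hm, ?_⟩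
    show (Φ)^[m] a⁻¹ = a⁻¹
    rw [← pow_eq_iterate, map_inv₀, pow_eq_iterate]
    exact congrArg (·⁻¹) ha

lemma per_of_alg {F k : Type} [Field F] [Field k] [Algebra F k] (Φ : k ≃+* k) (q : ℕ)
    (hF : ∀ c : F, ∃ m : ℕ, 0 < m ∧ c ^ (q ^ m) = c)
    (hΦ : ∀ c : F, Φ (algebraMap F k c) = algebraMap F k (c ^ q)) (xb : k) (hx : Φ xb = xb) (z : k)
    (hz : IsIntegral (IntermediateField.adjoin F {xb}) z) : ∃ m : ℕ, 0 < m ∧ (Φ ^ m) z = z := by
  have hF' : ∀ c : F, algebraMap F k c ∈ Function.periodicPts Φ := by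
    intro c
    obtain ⟨m, hm, hc⟩ := hF c
    refine ⟨m, hm, ?_⟩
    have h1 : ∀ (n : ℕ) (c : F), (Φ)^[n] (algebraMap F k c) = algebraMap F k (c ^ (q ^ n)) := by
      intro n
      induction n with
      | zero => intro c; simp
      | succ n ih =>
        intro c
        rw [Function.iterate_succ_apply, hΦ, ih, ← pow_mul, pow_succ, mul_comm]
    show (Φ)^[m] (algebraMap F k c) = _
    rw [h1, hc]
  have hle : IntermediateField.adjoin F {xb} ≤ perF Φ hF' := by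
    rw [IntermediateField.adjoin_le_iff, Set.singleton_subset_iff]
    exact ⟨1, one_pos, hx⟩
  set P := minpoly (IntermediateField.adjoin F {xb}) z with hP
  set Q : k[X] := P.map (algebraMap (IntermediateField.adjoin F {xb}) k) with hQ
  have hQ0 : Q ≠ 0 := by
    rw [hQ, Polynomial.map_ne_zero_iff (algebraMap (IntermediateField.adjoin F {xb}) k).injective]
    exact minpoly.ne_zero hz
  have hQc : ∀ i, ∃ m : ℕ, 0 < m ∧ (Φ)^[m] (Q.coeff i) = Q.coeff i := by
    intro i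
    have h1 : Q.coeff i ∈ perF Φ hF' := by
      rw [hQ, Polynomial.coeff_map]
      exact hle (P.coeff i).2
    obtain ⟨m, hm, h2⟩ := h1
    exact ⟨m, hm, h2⟩
  choose m hm hm' using hQc
  set L := ∏ i ∈ Finset.range (Q.natDegree + 1), m i with hL
  have hL0 : 0 < L := Finset.prod_pos fun i _ => hm i
  have hLQ : Q.map ((Φ ^ L : k ≃+* k) : k →+* k) = Q := by
    ext i
    rw [Polynomial.coeff_map]
    show (Φ ^ L) (Q.coeff i) = Q.coeff i
    rw [pow_eq_iterate]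
    by_cases hi : i ≤ Q.natDegree
    · obtain ⟨c, hc⟩ : m i ∣ L := Finset.dvd_prod_of_mem _ (Finset.mem_range.2 (by omega))
      rw [hc]
      exact (show Function.IsPeriodicPt Φ (m i) (Q.coeff i) from hm' i).mul_const c
    · rw [Polynomial.coeff_eq_zero_of_natDegree_lt (by omega), ← pow_eq_iterate, map_zero]
  have hroot : ∀ w, Q.IsRoot w → Q.IsRoot ((Φ ^ L) w) := by
    intro w hw
    have h1 : (Q.map ((Φ ^ L : k ≃+* k) : k →+* k)).eval ((Φ ^ L) w) = (Φ ^ L) (Q.eval w) := by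
      have := Polynomial.eval₂_at_apply (p := Q) ((Φ ^ L : k ≃+* k) : k →+* k) w
      rw [Polynomial.eval_map]
      exact this
    rw [hLQ, hw, map_zero] at h1
    exact h1
  let S := {w : k // Q.IsRoot w}
  haveI : Finite S := by
    have := Polynomial.finite_setOf_isRoot hQ0
    exact this.to_subtype
  let f : S → S := fun w => ⟨(Φ ^ L) w.1, hroot w.1 w.2⟩
  have hf : Function.Injective f := by
    intro a b hab
    have h1 := congrArg Subtype.val hab
    exact Subtype.ext ((Φ ^ L).injective h1)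
  have hzr : Q.IsRoot z := by
    rw [hQ, Polynomial.IsRoot, Polynomial.eval_map]
    exact minpoly.aeval _ z
  obtain ⟨n, hn, h2⟩ := hf.mem_periodicPts ⟨z, hzr⟩
  refine ⟨L * n, Nat.mul_pos hL0 hn, ?_⟩
  have h3 : ∀ (j : ℕ) (w : S), ((f^[j] w : S) : k) = (Φ ^ (L * j)) (w : k) := by
    intro j
    induction j with
    | zero => intro w; simp
    | succ j ih =>
      intro w
      rw [Function.iterate_succ_apply, ih, Nat.mul_succ, pow_add]
      rfl
  rw [← h3 n ⟨z, hzr⟩]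
  exact congrArg Subtype.val h2

/-! ## the residue fields of the levels -/

lemma exists_Nb {κ R M F k : Type} [Field κ] [Field R] [Field M] [Field F] [Field k] [Algebra κ R] [Algebra R M]
    [Algebra κ M] [IsScalarTower κ R M] [Algebra F k] {V : ValuationSubring κ} {r : V →+* F} (hr : Res V r)
    {O : ValuationSubring M} {s : O →+* k} (hs : Res O s) (hVO : ∀ c ∈ V, algebraMap κ M c ∈ O)
    (hfr : ∀ (c : κ) (hc : c ∈ V) (hc' : algebraMap κ M c ∈ O), s ⟨_, hc'⟩ = algebraMap F k (r ⟨c, hc⟩))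
    (N : IntermediateField R M) :
    ∃ Nb : IntermediateField F k, ∀ y, y ∈ Nb ↔ ∃ (z : M) (hz : z ∈ O), z ∈ N ∧ s ⟨z, hz⟩ = y := by
  refine ⟨{ carrier := {y | ∃ (z : M) (hz : z ∈ O), z ∈ N ∧ s ⟨z, hz⟩ = y}
            add_mem' := ?_
            mul_mem' := ?_
            algebraMap_mem' := ?_
            inv_mem' := ?_ }, fun y => Iff.rfl⟩
  · rintro _ _ ⟨z, hz, hzN, rfl⟩ ⟨w, hw, hwN, rfl⟩
    exact ⟨z * w, mul_mem hz hw, mul_mem hzN hwN, by rw [← map_mul]; rfl⟩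
  · rintro _ _ ⟨z, hz, hzN, rfl⟩ ⟨w, hw, hwN, rfl⟩
    exact ⟨z + w, add_mem hz hw, add_mem hzN hwN, by rw [← map_add]; rfl⟩
  · intro c
    obtain ⟨v, rfl⟩ := hr.surj c
    refine ⟨algebraMap κ M v, hVO v v.2, ?_, hfr v v.2 _⟩
    rw [IsScalarTower.algebraMap_apply κ R M]
    exact N.algebraMap_mem _
  · rintro _ ⟨z, hz, hzN, rfl⟩
    by_cases h0 : s ⟨z, hz⟩ = 0
    · exact ⟨0, zero_mem _, zero_mem _, by rw [h0, inv_zero]; exact map_zero s⟩
    · have h1 := (res_ne_zero hs ⟨z, hz⟩).1 h0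
      refine ⟨z⁻¹, h1.2.2, inv_mem hzN, ?_⟩
      rw [eq_comm, inv_eq_iff_eq_inv, eq_comm, inv_eq_of_mul_eq_one_left]
      rw [← map_mul]
      have : (⟨z, hz⟩ * ⟨z⁻¹, h1.2.2⟩ : O) = 1 := Subtype.ext (mul_inv_cancel₀ h1.1)
      rw [this, map_one]

/-- an element with residue one and a power in `N` is in `N` -/
lemma mem_of_res_one {ℓ : ℕ} {κ R M F : Type} [Field κ] [IsAlgClosed κ] [Field R] [Field M] [Field F]
    [Algebra κ R] [Algebra R M] [Algebra κ M] [IsScalarTower κ R M] [IsGalois R M] {x : R}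
    {V : ValuationSubring κ} {r : V →+* F} (hr : Res V r) (hℓ0 : 0 < ℓ) (hℓ : IsU V (ℓ : κ))
    {O : ValuationSubring M} (hO : Gauss V (algebraMap R M x) O)
    (hOu : ∀ O' : ValuationSubring M, Gauss V (algebraMap R M x) O' → O' = O)
    {k : Type} [Field k] {s : O →+* k} (hs : Res O s) (N : IntermediateField R M)
    (t : M) (ht : t ∈ O) (ht1 : s ⟨t, ht⟩ = 1) (n : ℕ) (htn : t ^ (ℓ ^ n) ∈ N) : t ∈ N := by
  have hU : IsU O t := (res_ne_zero hs ⟨t, ht⟩).1 (by rw [ht1]; exact one_ne_zero)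
  have hfix : ∀ γ ∈ N.fixingSubgroup, γ t = t := by
    intro γ hγ
    rw [IntermediateField.mem_fixingSubgroup_iff] at hγ
    have hγO : ∀ z, γ z ∈ O ↔ z ∈ O := by
      intro z
      have h1 := hOu _ (gauss_comap hO (γ : M ≃+* M) (RingEquiv.refl κ) (fun c => by
        show γ (algebraMap κ M c) = algebraMap κ M c
        rw [IsScalarTower.algebraMap_apply κ R M, AlgEquiv.commutes]) (by
        show γ (algebraMap R M x) = _
        rw [AlgEquiv.commutes]) (fun c => Iff.rfl))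
      rw [show (γ z ∈ O) = (z ∈ O.comap ((γ : M ≃+* M) : M →+* M)) from rfl, h1]
    have hNpos : 0 < ℓ ^ n := pow_pos hℓ0 n
    set ζ : M := γ t / t with hζ
    have hζ1 : ζ ^ (ℓ ^ n) = 1 := by
      rw [hζ, div_pow, ← map_pow, hγ _ htn, div_self (pow_ne_zero _ hU.1)]
    -- `ζ` is a constant
    obtain ⟨c, hc⟩ : ∃ c : κ, algebraMap κ M c = ζ := by
      have hint : IsIntegral κ ζ := ⟨X ^ (ℓ ^ n) - 1, Polynomial.monic_X_pow_sub_C (1 : κ) hNpos.ne', by simp [hζ1]⟩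
      have := IsAlgClosed.degree_eq_one_of_irreducible κ (minpoly.irreducible hint)
      exact minpoly.mem_range_of_degree_eq_one κ ζ this
    have hc1 : c ^ (ℓ ^ n) = 1 := by
      apply (algebraMap κ M).injective
      rw [map_pow, hc, hζ1, map_one]
    have hc0 : c ≠ 0 := by
      rintro rfl
      rw [zero_pow hNpos.ne'] at hc1
      exact zero_ne_one hc1
    have hcV : c ∈ V := by
      rcases V.mem_or_inv_mem c with h | h
      · exact h
      · have h1 : c = (c⁻¹) ^ (ℓ ^ n - 1) := by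
          have h2 : (c⁻¹) ^ (ℓ ^ n - 1) * c⁻¹ = 1 := by
            rw [← pow_succ, Nat.sub_add_cancel hNpos, inv_pow, hc1, inv_one]
          field_simp at h2
          rw [one_div] at h2
          exact h2.symm
        rw [h1]
        exact pow_mem h _
    have hγt : γ t ∈ O := (hγO t).2 ht
    have hζO : ζ ∈ O := by rw [← hc]; exact (hO.1 c).2 hcV
    have hs1 : s ⟨γ t, hγt⟩ = 1 := by
      have h1 : s (⟨t, ht⟩ - 1) = 0 := by rw [map_sub, ht1, map_one, sub_self]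
      rw [hs.ker, ValuationSubring.mem_nonunits_iff_or] at h1
      have h2 : s (⟨γ t, hγt⟩ - 1) = 0 := by
        rw [hs.ker, ValuationSubring.mem_nonunits_iff_or]
        have e1 : (((⟨γ t, hγt⟩ - 1 : O)) : M) = γ (((⟨t, ht⟩ - 1 : O)) : M) := by
          show γ t - 1 = γ (t - 1)
          rw [map_sub, map_one]
        rw [e1]
        rcases h1 with h1 | h1
        · left; rw [h1, map_zero]
        · right; rw [← map_inv₀, hγO]; exact h1
      rw [map_sub, map_one, sub_eq_zero] at h2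
      exact h2
    have hsζ : s ⟨ζ, hζO⟩ = 1 := by
      have h1 : (⟨ζ, hζO⟩ * ⟨t, ht⟩ : O) = ⟨γ t, hγt⟩ := Subtype.ext (div_mul_cancel₀ _ hU.1)
      have h2 := congrArg s h1
      rw [map_mul, ht1, hs1, mul_one] at h2
      exact h2
    have hrc : r ⟨c, hcV⟩ = 1 := by
      have h1 : s (⟨ζ, hζO⟩ - 1) = 0 := by rw [map_sub, hsζ, map_one, sub_self]
      rw [hs.ker, ValuationSubring.mem_nonunits_iff_or] at h1
      have h2 : r (⟨c, hcV⟩ - 1) = 0 := by
        rw [hr.ker, ValuationSubring.mem_nonunits_iff_or]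
        have e1 : (((⟨ζ, hζO⟩ - 1 : O)) : M) = algebraMap κ M (((⟨c, hcV⟩ - 1 : V)) : κ) := by
          show ζ - 1 = algebraMap κ M (c - 1)
          rw [map_sub, map_one, hc]
        rw [e1] at h1
        rcases h1 with h1 | h1
        · left; exact (map_eq_zero _).1 h1
        · right; rw [← map_inv₀, hO.1] at h1; exact h1
      rw [map_sub, map_one, sub_eq_zero] at h2
      exact h2
    have := zeta_one V r hr ℓ hℓ n c hc1 hcV hrc
    rw [this, map_one] at hc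
    rw [eq_comm, hζ, div_eq_one_iff_eq hU.1] at hc
    exact hc
  rw [← InfiniteGalois.fixedField_fixingSubgroup N, IntermediateField.mem_fixedField_iff]
  exact hfix

lemma core (hCLF : S_CLF) (hG2 : S_G2) (hG4 : S_G4) (hG5 : S_G5) (ℓ : ℕ) [Fact ℓ.Prime] (κ R M : Type) [Field κ]
    [IsAlgClosed κ] [CharZero κ] [Field R]
    [Field M] [Algebra κ R] [Algebra R M] [Algebra κ M] [IsScalarTower κ R M] (x : R)
    (B : Finset κ) (Y : M) (hcov : Cov ℓ κ R M x B Y)
    (F : Type) [Field F] (V : ValuationSubring κ) (r : V →+* F) (hr : Res V r) (hgood : Good V B)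
    (hℓ : IsU V (ℓ : κ)) (D : Disc ℓ V r)
    (p : ℕ) [Fact p.Prime] [CharP F p] (q a : ℕ) (ha : 0 < a) (hq : q = p ^ a)
    (hF : ∀ c : F, ∃ m : ℕ, 0 < m ∧ c ^ (q ^ m) = c)
    (O : ValuationSubring M) (hO : Gauss V (algebraMap R M x) O)
    (hOu : ∀ O' : ValuationSubring M, Gauss V (algebraMap R M x) O' → O' = O)
    (N : IntermediateField R M) (hN : Lev ℓ N) (hY : Y ∈ N)
    (φ : M ≃+* M) (φ₀ : κ ≃+* κ) (hφc : ∀ c, φ (algebraMap κ M c) = algebraMap κ M (φ₀ c))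
    (hφx : φ (algebraMap R M x) = algebraMap R M x) (hφN : ∀ z, φ z ∈ N ↔ z ∈ N)
    (hφV : ∀ c, φ₀ c ∈ V ↔ c ∈ V) (hφq : ∀ c ∈ V, φ₀ c - c ^ q ∈ V.nonunits)
    (k : Type) [Field k] [Algebra F k] (s : O →+* k) (hs : Res O s)
    (hfr : ∀ (c : κ) (hc : c ∈ V) (hc' : algebraMap κ M c ∈ O), s ⟨_, hc'⟩ = algebraMap F k (r ⟨c, hc⟩))
    (Φ : k ≃+* k) (hΦ : ∀ (z : M) (hz : z ∈ O) (hz' : φ z ∈ O), Φ (s ⟨z, hz⟩) = s ⟨φ z, hz'⟩)
    (hφO : ∀ z, φ z ∈ O ↔ z ∈ O) :
    FinCls N.toSubfield (fun h => (∃ n : ℕ, h ^ (ℓ ^ n) ∈ N) ∧ φ h / h ∈ N) := by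
  classical
  haveI := hcov.gal
  haveI : IsAlgClosed F := algClosed_res V r hr
  have hVO : ∀ c ∈ V, algebraMap κ M c ∈ O := fun c hc => (hO.1 c).2 hc
  have hκN : ∀ c : κ, algebraMap κ M c ∈ N := fun c => by
    rw [IsScalarTower.algebraMap_apply κ R M]
    exact N.algebraMap_mem _
  have hxU : IsU O (algebraMap R M x) := by
    have h1 := hO.2 (Polynomial.X : κ[X]) (fun n => by
      rw [Polynomial.coeff_X]
      split_ifs
      · exact one_mem _
      · exact zero_mem _) ⟨1, by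
      rw [Polynomial.coeff_X_one]
      exact ⟨one_ne_zero, one_mem _, by rw [inv_one]; exact one_mem _⟩⟩
    rwa [Polynomial.aeval_X] at h1
  obtain ⟨htr, hlev⟩ := hG5 ℓ κ R M x B Y hcov F V r hr hℓ O hO hOu k s hs hfr
    (s ⟨algebraMap R M x, hxU.2.1⟩) (fun _ => rfl)
  set xb := s ⟨algebraMap R M x, hxU.2.1⟩ with hxb
  have hΦx : Φ xb = xb := by
    rw [hxb, hΦ _ _ (by rw [hφx]; exact hxU.2.1)]
    congr 1
    exact Subtype.ext hφx
  have hΦc : ∀ c : F, Φ (algebraMap F k c) = algebraMap F k (c ^ q) := by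
    intro c
    obtain ⟨⟨v, hv⟩, rfl⟩ := hr.surj c
    have h1 : φ (algebraMap κ M v) ∈ O := by rw [hφc]; exact hVO _ ((hφV _).2 hv)
    rw [← hfr v hv (hVO v hv), hΦ _ _ h1]
    have h2 : (⟨φ (algebraMap κ M v), h1⟩ : O) = ⟨algebraMap κ M (φ₀ v), hVO _ ((hφV _).2 hv)⟩ :=
      Subtype.ext (hφc v)
    rw [h2, hfr _ ((hφV _).2 hv)]
    congr 1
    have h3 : r (⟨φ₀ v, (hφV _).2 hv⟩ - ⟨v, hv⟩ ^ q) = 0 := (hr.ker _).2 (hφq v hv)
    rw [map_sub, map_pow, sub_eq_zero] at h3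
    exact h3
  obtain ⟨Nb, hNb⟩ := exists_Nb hr hs hVO hfr N
  obtain ⟨hfin, hsep⟩ := hlev N hN Nb hNb
  have hper : ∀ z : k, ∃ m : ℕ, 0 < m ∧ (Φ ^ m) z = z := by
    intro z
    obtain ⟨⟨z', hz'⟩, rfl⟩ := hs.surj z
    obtain ⟨N', hzN', hN'⟩ := hcov.pow z'
    obtain ⟨Nb', hNb'⟩ := exists_Nb hr hs hVO hfr N'
    obtain ⟨-, hsep'⟩ := hlev N' hN' Nb' hNb'
    have h1 := (hsep' _ ((hNb' _).2 ⟨z', hz', hzN', rfl⟩)).isIntegral
    exact per_of_alg Φ q hF hΦc xb hΦx _ h1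
  have hxNb : xb ∈ Nb := (hNb xb).2 ⟨_, hxU.2.1, N.algebraMap_mem x, rfl⟩
  have hΦNb : ∀ z, Φ z ∈ Nb ↔ z ∈ Nb := by
    intro z
    constructor
    · intro h
      obtain ⟨w, hw, hwN, hwz⟩ := (hNb _).1 h
      have h1 : φ (φ.symm w) ∈ O := by rw [RingEquiv.apply_symm_apply]; exact hw
      have h2 : φ.symm w ∈ O := (hφO _).1 h1
      refine (hNb _).2 ⟨φ.symm w, h2, ?_, ?_⟩
      · rw [← hφN, RingEquiv.apply_symm_apply]; exact hwN
      · apply Φ.injective
        rw [hΦ _ _ h1, ← hwz]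
        congr 1
        exact Subtype.ext (RingEquiv.apply_symm_apply _ _)
    · intro h
      obtain ⟨w, hw, hwN, rfl⟩ := (hNb _).1 h
      rw [hΦ _ _ ((hφO w).2 hw)]
      exact (hNb _).2 ⟨φ w, (hφO w).2 hw, (hφN w).2 hwN, rfl⟩
  have hℓp : ℓ ≠ p := by
    rintro rfl
    have h6 : r (⟨(ℓ : κ), hℓ.2.1⟩ : V) ≠ 0 := (res_ne_zero hr _).2 hℓ
    have h7 : r (⟨(ℓ : κ), hℓ.2.1⟩ : V) = (ℓ : F) := by
      have : (⟨(ℓ : κ), hℓ.2.1⟩ : V) = ((ℓ : ℕ) : V) := by
        apply Subtype.ext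
        push_cast
        rfl
      rw [this, map_natCast]
    rw [h7] at h6
    exact h6 (CharP.cast_eq_zero F ℓ)
  obtain ⟨C, hC⟩ := hCLF ℓ q F k p a ha hq hℓp hF xb htr Nb hxNb hfin hsep Φ hΦc hΦx hΦNb hper
  refine ⟨C, fun T hT hcard => ?_⟩
  have hnorm := (hG2 ℓ κ R M x B Y hcov V O hO).1
  choose! cc hcc0 hccU using hnorm
  set g : M → k := fun h => if hh : h / algebraMap κ M (cc h) ∈ O then s ⟨_, hh⟩ else 0 with hg
  have hgs : ∀ h ∈ T, ∀ hh : h / algebraMap κ M (cc h) ∈ O, g h = s ⟨_, hh⟩ := by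
    intro h hhT hh
    rw [hg]
    exact dif_pos hh
  have hg0 : ∀ h ∈ T, g h ≠ 0 := by
    intro h hhT
    have h1 := hccU h (hT h hhT).1
    rw [hgs h hhT h1.2.1]
    exact (res_ne_zero hs _).2 h1
  -- powers of the normalised elements
  have hpow : ∀ h ∈ T, ∃ n : ℕ, (h / algebraMap κ M (cc h)) ^ (ℓ ^ n) ∈ N := by
    intro h hhT
    obtain ⟨n, hn⟩ := (hT h hhT).2.1
    refine ⟨n, ?_⟩
    rw [div_pow]
    exact div_mem hn (pow_mem (hκN _) _)
  have hkey : ∀ h ∈ T, ∀ h' ∈ T, g h / g h' ∈ Nb → h / h' ∈ N := by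
    intro h hhT h' hhT' hmem
    obtain ⟨v, hv, hvN, hvs⟩ := (hNb _).1 hmem
    have hu := hccU h (hT h hhT).1
    have hu' := hccU h' (hT h' hhT').1
    have hc := hcc0 h (hT h hhT).1
    have hc' := hcc0 h' (hT h' hhT').1
    obtain ⟨n, hn⟩ := hpow h hhT
    obtain ⟨n', hn'⟩ := hpow h' hhT'
    have hvU : IsU O v := (res_ne_zero hs ⟨v, hv⟩).1 (by
      rw [hvs]; exact div_ne_zero (hg0 h hhT) (hg0 h' hhT'))
    have hgh := hgs h hhT hu.2.1
    have hgh' := hgs h' hhT' hu'.2.1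
    set u := h / algebraMap κ M (cc h) with hud
    set u' := h' / algebraMap κ M (cc h') with hud'
    have ht : u * u'⁻¹ * v⁻¹ ∈ O := mul_mem (mul_mem hu.2.1 hu'.2.2) hvU.2.2
    have hst : s ⟨u * u'⁻¹ * v⁻¹, ht⟩ = 1 := by
      have h1 : (⟨u * u'⁻¹ * v⁻¹, ht⟩ * (⟨u', hu'.2.1⟩ * ⟨v, hv⟩) : O) = ⟨u, hu.2.1⟩ := by
        apply Subtype.ext
        show u * u'⁻¹ * v⁻¹ * (u' * v) = u
        have := hu'.1
        have := hvU.1
        field_simp
      have h2 := congrArg s h1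
      rw [map_mul, map_mul, ← hgh, ← hgh', hvs, mul_div_cancel₀ _ (hg0 h' hhT')] at h2
      exact mul_right_cancel₀ (hg0 h hhT) (h2.trans (one_mul _).symm)
    have htN := mem_of_res_one hr (Fact.out : ℓ.Prime).pos hℓ hO hOu hs N _ ht hst (n + n') (by
      rw [mul_pow, mul_pow, pow_add, pow_mul u, mul_comm (ℓ ^ n), pow_mul u'⁻¹]
      refine mul_mem (mul_mem (pow_mem hn _) (pow_mem ?_ _)) (pow_mem (inv_mem hvN) _)
      rw [inv_pow]
      exact inv_mem hn')
    have h3 : h / h' = (u * u'⁻¹ * v⁻¹) * v * (algebraMap κ M (cc h) / algebraMap κ M (cc h')) := by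
      have e1 : algebraMap κ M (cc h) ≠ 0 := (_root_.map_ne_zero _).2 hc
      have e2 : algebraMap κ M (cc h') ≠ 0 := (_root_.map_ne_zero _).2 hc'
      have e3 := (hT h' hhT').1
      have e4 := hvU.1
      rw [hud, hud']
      field_simp
    rw [h3]
    exact mul_mem (mul_mem htN hvN) (div_mem (hκN _) (hκN _))
  have hprop : ∀ h ∈ T, g h ≠ 0 ∧ (∃ (n : ℕ) (hn : g h ^ (ℓ ^ n) ∈ Nb),
        ∀ w : Place F Nb, ((ℓ : ℤ) ^ n) ∣ w.ord ⟨_, hn⟩) ∧ Φ (g h) / g h ∈ Nb := by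
    intro h hhT
    have hu := hccU h (hT h hhT).1
    have hc := hcc0 h (hT h hhT).1
    obtain ⟨n, hn⟩ := hpow h hhT
    have hgh := hgs h hhT hu.2.1
    have hφh := (hT h hhT).2.2
    have hh0 := (hT h hhT).1
    refine ⟨hg0 h hhT, ⟨n, ?_, ?_⟩, ?_⟩
    · rw [hgh]
      exact (hNb _).2 ⟨_, pow_mem hu.2.1 _, hn, by rw [← map_pow]; rfl⟩
    · intro w
      exact hG4 ℓ κ R M x B Y hcov F V r hr hgood hℓ D O hO hOu k s hs hfr N hN hY Nb hNb _ hu.2.1 n
        hu.2.2 hu.1 hn w _ (congrArg (· ^ (ℓ ^ n)) hgh)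
    · rw [hgh]
      set u := h / algebraMap κ M (cc h) with hud
      have hφu : φ u ∈ O := (hφO u).2 hu.2.1
      rw [hΦ _ _ hφu]
      have h1 : φ u * u⁻¹ ∈ O := mul_mem hφu hu.2.2
      refine (hNb _).2 ⟨φ u * u⁻¹, h1, ?_, ?_⟩
      · have h2 : φ u * u⁻¹ = (φ h / h) * (algebraMap κ M (cc h) / φ (algebraMap κ M (cc h))) := by
          have e1 : algebraMap κ M (cc h) ≠ 0 := (_root_.map_ne_zero _).2 hc
          have e2 : φ (algebraMap κ M (cc h)) ≠ 0 := (map_ne_zero_iff φ φ.injective).2 e1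
          rw [hud, map_div₀]
          field_simp
        rw [h2, hφc]
        exact mul_mem hφh (div_mem (hκN _) (hκN _))
      · rw [eq_div_iff (by rw [← hgh]; exact hg0 h hhT), ← map_mul]
        congr 1
        apply Subtype.ext
        show φ u * u⁻¹ * u = φ u
        rw [mul_assoc, inv_mul_cancel₀ hu.1, mul_one]
  by_cases hinj : Set.InjOn g T
  · have h1 := hC (T.image g) (fun y hy => by
      obtain ⟨h, hhT, rfl⟩ := Finset.mem_image.1 hy
      exact hprop h hhT) (by rw [Finset.card_image_of_injOn hinj]; exact hcard)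
    obtain ⟨y, hy, y', hy', hne, hmem⟩ := h1
    obtain ⟨h, hhT, rfl⟩ := Finset.mem_image.1 hy
    obtain ⟨h', hhT', rfl⟩ := Finset.mem_image.1 hy'
    exact ⟨h, hhT, h', hhT', fun e => hne (by rw [e]), hkey h hhT h' hhT' hmem⟩
  · unfold Set.InjOn at hinj
    push Not at hinj
    obtain ⟨h, hhT, h', hhT', he, hne⟩ := hinj
    refine ⟨h, hhT, h', hhT', hne, hkey h hhT h' hhT' ?_⟩
    rw [he, div_self (hg0 h' hhT')]
    exact one_mem _

theorem fixf (hCLF : S_CLF) (hG2 : S_G2) (hG4 : S_G4) (hG5 : S_G5) : S_FIXF := by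
  intro ℓ _ κ R M _ _ _ _ _ _ _ _ _ x B Y hcov F _ V r hr hgood hℓ D p _ _ q a ha hq hF O hO hOu N hN hY φ φ₀
    hφc hφx hφN hφV hφq
  have hVO : ∀ c ∈ V, algebraMap κ M c ∈ O := fun c hc => (hO.1 c).2 hc
  have hφO : ∀ z, φ z ∈ O ↔ z ∈ O := by
    intro z
    have h1 := hOu _ (gauss_comap hO φ φ₀ hφc hφx hφV)
    rw [show (φ z ∈ O) = (z ∈ O.comap (φ : M →+* M)) from rfl, h1]
  let iV : V →+* O := ((algebraMap κ M).comp V.subtype).codRestrict O.toSubring (fun c => hVO c c.2)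
  have hker : RingHom.ker r ≤ RingHom.ker ((IsLocalRing.residue O).comp iV) := by
    intro c hc
    rw [RingHom.mem_ker, hr.ker, ValuationSubring.mem_nonunits_iff_or] at hc
    rw [RingHom.mem_ker, RingHom.comp_apply, (res_residue O).ker, ValuationSubring.mem_nonunits_iff_or]
    show algebraMap κ M c = 0 ∨ (algebraMap κ M c)⁻¹ ∉ O
    rcases hc with hc | hc
    · left; rw [hc, map_zero]
    · right; rw [← map_inv₀, hO.1]; exact hc
  let f : F →+* IsLocalRing.ResidueField O :=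
    (r.liftOfSurjective hr.surj) ⟨(IsLocalRing.residue O).comp iV, hker⟩
  letI : Algebra F (IsLocalRing.ResidueField O) := f.toAlgebra
  have hfr : ∀ (c : κ) (hc : c ∈ V) (hc' : algebraMap κ M c ∈ O),
      IsLocalRing.residue O ⟨_, hc'⟩ = algebraMap F (IsLocalRing.ResidueField O) (r ⟨c, hc⟩) := by
    intro c hc hc'
    exact (RingHom.liftOfSurjective_comp_apply r hr.surj ⟨(IsLocalRing.residue O).comp iV, hker⟩ ⟨c, hc⟩).symm
  let φO : O ≃+* O :=
    { toFun := fun z => ⟨φ z, (hφO z).2 z.2⟩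
      invFun := fun z => ⟨φ.symm z, (hφO _).1 (by rw [RingEquiv.apply_symm_apply]; exact z.2)⟩
      left_inv := fun z => Subtype.ext (RingEquiv.symm_apply_apply _ _)
      right_inv := fun z => Subtype.ext (RingEquiv.apply_symm_apply _ _)
      map_mul' := fun z w => Subtype.ext (map_mul φ _ _)
      map_add' := fun z w => Subtype.ext (map_add φ _ _) }
  exact core hCLF hG2 hG4 hG5 ℓ κ R M x B Y hcov F V r hr hgood hℓ D p q a ha hq hF O hO hOu N hN hY φ φ₀
    hφc hφx hφN hφV hφq (IsLocalRing.ResidueField O) (IsLocalRing.residue O) (res_residue O) hfr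
    (IsLocalRing.ResidueField.mapEquiv φO) (fun z hz hz' => rfl) hφO

end Pool.Agent.Y419.PS
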